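import Pool.Agent.Helper64.IG.Goals

/-!
# Tutte's linking theorem for rank functions (packet TLK)
-/

namespace Pool.Agent.Helper64.IG.PkTLK

variable {E : Type} [DecidableEq E]

theorem mono {r : Finset E → ℕ} (h1 : ∀ X e, r X ≤ r (insert e X) ∧ r (insert e X) ≤ r X + 1)
    {X Y : Finset E} (h : X ⊆ Y) : r X ≤ r Y := by
  have key : ∀ Z : Finset E, r X ≤ r (Z ∪ X) := by
    intro Z
    induction Z using Finset.induction_on with
    | empty => rw [Finset.empty_union]
    | insert a Z _ ih =>
      rw [Finset.insert_union]
      exact ih.trans (h1 _ _).1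
  have := key Y
  rwa [Finset.union_eq_left.2 h] at this

/-- The induction. -/
theorem gen : ∀ (n : ℕ) (r : Finset E → ℕ), r ∅ = 0 →
    (∀ X e, r X ≤ r (insert e X) ∧ r (insert e X) ≤ r X + 1) →
    (∀ X Y, r (X ∩ Y) + r (X ∪ Y) ≤ r X + r Y) →
    ∀ (p k : ℕ) (F S B : Finset E), S.card = n → r (F ∪ S ∪ B) = p →
    r F + r (S ∪ B) = k + p →
    (∀ Y, Y ⊆ S → k + p ≤ r (F ∪ Y) + r (S \ Y ∪ B)) →
    ∃ C, C ⊆ S ∧ r C = C.card ∧ r (F ∪ C ∪ B) = p ∧
      r (F ∪ C) + r (C ∪ B) = k + p + C.card := by
  intro n
  induction n with
  | zero =>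
    intro r h0 _ _ p k F S B hS hp hF _
    rw [Finset.card_eq_zero] at hS
    subst hS
    refine ⟨∅, Finset.Subset.refl _, by rw [h0, Finset.card_empty], hp, ?_⟩
    rw [Finset.union_empty, Finset.card_empty, add_zero]
    exact hF
  | succ n ih =>
    intro r h0 h1 h2 p k F S B hS hp hF hY
    obtain ⟨s, S', hs, rfl, hS'⟩ := Finset.card_eq_succ.1 hS
    have hmem : ∀ Y, Y ⊆ S' → s ∉ Y := fun Y hYS h => hs (hYS h)
    have hsd : ∀ Y, Y ⊆ S' → insert s S' \ Y ∪ B = insert s (S' \ Y ∪ B) := by
      intro Y hYS
      rw [Finset.insert_sdiff_of_notMem _ (hmem Y hYS), Finset.insert_union]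
    have hFS : F ∪ insert s S' ∪ B = insert s (F ∪ S' ∪ B) := by
      rw [Finset.union_insert, Finset.insert_union]
    have hSB : insert s S' ∪ B = insert s (S' ∪ B) := Finset.insert_union _ _ _
    by_cases hs0 : r {s} = 0
    · have hr : ∀ X, r (insert s X) = r X := by
        intro X
        have h3 := h2 X {s}
        have h4 : X ∪ {s} = insert s X := by
          rw [Finset.union_comm, Finset.singleton_union]
        rw [h4, hs0] at h3
        have h5 := (h1 X s).1
        omega
      rw [hFS, hr] at hp
      rw [hSB, hr] at hF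
      obtain ⟨C, hC, h3, h4, h5⟩ := ih r h0 h1 h2 p k F S' B hS' hp hF (fun Y hYS => by
        have := hY Y (hYS.trans (Finset.subset_insert _ _))
        rwa [hsd Y hYS, hr] at this)
      exact ⟨C, hC.trans (Finset.subset_insert _ _), h3, h4, h5⟩
    · by_cases hcase : ∀ Y, Y ⊆ S' → k + p ≤ r (F ∪ Y) + r (S' \ Y ∪ B)
      · have h3 := hcase ∅ (Finset.empty_subset _)
        rw [Finset.union_empty, Finset.sdiff_empty] at h3
        have h4 : r (S' ∪ B) ≤ r (insert s S' ∪ B) := by
          rw [hSB]
          exact (h1 _ _).1
        have h5 : r (S' ∪ B) = r (insert s S' ∪ B) := by omega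
        have h6 := h2 (insert s S' ∪ B) (F ∪ S' ∪ B)
        have h7 : r (S' ∪ B) ≤ r ((insert s S' ∪ B) ∩ (F ∪ S' ∪ B)) := by
          refine mono h1 ?_
          intro x hx
          simp only [Finset.mem_inter, Finset.mem_union, Finset.mem_insert] at hx ⊢
          tauto
        have h8 : insert s S' ∪ B ∪ (F ∪ S' ∪ B) = F ∪ insert s S' ∪ B := by
          ext x
          simp only [Finset.mem_union, Finset.mem_insert]
          tauto
        rw [h8, hp] at h6
        have h9 : r (F ∪ S' ∪ B) ≤ p := by
          rw [← hp, hFS]
          exact (h1 _ _).1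
        obtain ⟨C, hC, g3, g4, g5⟩ := ih r h0 h1 h2 p k F S' B hS' (by omega) (by omega) hcase
        exact ⟨C, hC.trans (Finset.subset_insert _ _), g3, g4, g5⟩
      · push Not at hcase
        obtain ⟨Y1, hY1, hlt⟩ := hcase
        have hs1 : r {s} = 1 := by
          have h3 := (h1 ∅ s).2
          rw [h0] at h3
          have h4 : insert s (∅ : Finset E) = {s} := rfl
          rw [h4] at h3
          omega
        have hpos : ∀ X, 1 ≤ r (insert s X) := by
          intro X
          rw [← hs1]
          exact mono h1 (Finset.singleton_subset_iff.2 (Finset.mem_insert_self _ _))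
        have hp1 : 1 ≤ p := by
          rw [← hp, hFS]
          exact hpos _
        have key : ∀ Y2, Y2 ⊆ S' →
            k + p + 1 ≤ r (insert s (F ∪ Y2)) + r (insert s (S' \ Y2 ∪ B)) := by
          intro Y2 hY2
          by_contra hcon
          push Not at hcon
          have e1 := h2 (F ∪ Y1) (insert s (F ∪ Y2))
          have e2 := h2 (S' \ Y1 ∪ B) (insert s (S' \ Y2 ∪ B))
          have a1 : r (F ∪ (Y1 ∩ Y2)) ≤ r ((F ∪ Y1) ∩ insert s (F ∪ Y2)) := by
            refine mono h1 ?_
            intro x hx
            simp only [Finset.mem_inter, Finset.mem_union, Finset.mem_insert] at hx ⊢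
            tauto
          have a2 : F ∪ Y1 ∪ insert s (F ∪ Y2) = F ∪ insert s (Y1 ∪ Y2) := by
            ext x
            simp only [Finset.mem_union, Finset.mem_insert]
            tauto
          have a3 : r (insert s S' \ insert s (Y1 ∪ Y2) ∪ B) ≤
              r ((S' \ Y1 ∪ B) ∩ insert s (S' \ Y2 ∪ B)) := by
            refine mono h1 ?_
            intro x hx
            simp only [Finset.mem_inter, Finset.mem_union, Finset.mem_insert,
              Finset.mem_sdiff] at hx ⊢
            tauto
          have a4 : S' \ Y1 ∪ B ∪ insert s (S' \ Y2 ∪ B) = insert s S' \ (Y1 ∩ Y2) ∪ B := by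
            ext x
            have hx1 : x ∈ Y1 → x ≠ s := fun h hxs => hmem Y1 hY1 (hxs ▸ h)
            simp only [Finset.mem_inter, Finset.mem_union, Finset.mem_insert, Finset.mem_sdiff]
            tauto
          rw [a2] at e1
          rw [a4] at e2
          have b1 := hY (Y1 ∩ Y2) ((Finset.inter_subset_left.trans hY1).trans
            (Finset.subset_insert _ _))
          have b2 := hY (insert s (Y1 ∪ Y2)) (Finset.insert_subset_insert _
            (Finset.union_subset hY1 hY2))
          omega
        have key0 := key ∅ (Finset.empty_subset _)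
        rw [Finset.union_empty, Finset.sdiff_empty] at key0
        have hF1 := (h1 F s).2
        rw [hSB] at hF
        rw [hFS] at hp
        obtain ⟨C, hC, g3, g4, g5⟩ := ih (fun X => r (insert s X) - 1)
          (by
            show r (insert s (∅ : Finset E)) - 1 = 0
            have h4 : insert s (∅ : Finset E) = {s} := rfl
            rw [h4, hs1])
          (by
            intro X e
            have h3 := h1 (insert s X) e
            rw [Finset.insert_comm] at h3
            have h4 := hpos X
            have h5 := hpos (insert e X)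
            show r (insert s X) - 1 ≤ r (insert s (insert e X)) - 1 ∧
              r (insert s (insert e X)) - 1 ≤ r (insert s X) - 1 + 1
            omega)
          (by
            intro X Y
            have h3 := h2 (insert s X) (insert s Y)
            have h4 : insert s X ∩ insert s Y = insert s (X ∩ Y) :=
              (Finset.insert_inter_distrib _ _ _).symm
            have h5 : insert s X ∪ insert s Y = insert s (X ∪ Y) :=
              (Finset.insert_union_distrib _ _ _).symm
            rw [h4, h5] at h3
            have p1 := hpos X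
            have p2 := hpos Y
            have p3 := hpos (X ∩ Y)
            have p4 := hpos (X ∪ Y)
            show r (insert s (X ∩ Y)) - 1 + (r (insert s (X ∪ Y)) - 1) ≤
              r (insert s X) - 1 + (r (insert s Y) - 1)
            omega)
          (p - 1) k F S' B hS'
          (by
            show r (insert s (F ∪ S' ∪ B)) - 1 = p - 1
            rw [hp])
          (by
            have p1 := hpos F
            have p2 := hpos (S' ∪ B)
            show r (insert s F) - 1 + (r (insert s (S' ∪ B)) - 1) = k + (p - 1)
            omega)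
          (fun Y hYS => by
            have h3 := key Y hYS
            have p1 := hpos (F ∪ Y)
            have p2 := hpos (S' \ Y ∪ B)
            show k + (p - 1) ≤ r (insert s (F ∪ Y)) - 1 + (r (insert s (S' \ Y ∪ B)) - 1)
            omega)
        have hsC : s ∉ C := hmem C hC
        have p1 := hpos C
        have p2 := hpos (F ∪ C ∪ B)
        have p3 := hpos (F ∪ C)
        have p4 := hpos (C ∪ B)
        refine ⟨insert s C, Finset.insert_subset_insert _ hC, ?_, ?_, ?_⟩
        · rw [Finset.card_insert_of_notMem hsC]
          have g3' : r (insert s C) - 1 = C.card := g3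
          omega
        · rw [Finset.union_insert, Finset.insert_union]
          have g4' : r (insert s (F ∪ C ∪ B)) - 1 = p - 1 := g4
          omega
        · rw [Finset.card_insert_of_notMem hsC, Finset.union_insert, Finset.insert_union]
          have g5' : r (insert s (F ∪ C)) - 1 + (r (insert s (C ∪ B)) - 1) =
            k + (p - 1) + C.card := g5
          omega

theorem tlk : G_TLK := by
  intro E _ _ r h0 h1 h2 p k F B hFB hp hF hY
  have hB : ∀ x, x ∈ F → x ∉ B := fun x h h' => (Finset.disjoint_left.1 hFB) h h'
  have e1 : F ∪ (F ∪ B)ᶜ ∪ B = Finset.univ := by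
    ext x
    simp only [Finset.mem_union, Finset.mem_compl, Finset.mem_univ, iff_true]
    tauto
  have e2 : (F ∪ B)ᶜ ∪ B = Fᶜ := by
    ext x
    have := hB x
    simp only [Finset.mem_union, Finset.mem_compl]
    tauto
  obtain ⟨C, hC, h3, h4, h5⟩ := gen (F ∪ B)ᶜ.card r h0 h1 h2 p k F (F ∪ B)ᶜ B rfl
    (by rw [e1, hp]) (by rw [e2, hF])
    (fun Y hYS => by
      have hYd : ∀ x, x ∈ Y → x ∉ F ∧ x ∉ B := by
        intro x hx
        have := hYS hx
        simp only [Finset.mem_union, Finset.mem_compl] at this
        tauto
      have e3 : (F ∪ Y)ᶜ = (F ∪ B)ᶜ \ Y ∪ B := by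
        ext x
        have h6 := hB x
        have h7 := hYd x
        simp only [Finset.mem_union, Finset.mem_compl, Finset.mem_sdiff]
        tauto
      have h6 := hY (F ∪ Y) Finset.subset_union_left (by
        rw [Finset.disjoint_left]
        intro x hx hxB
        rw [Finset.mem_union] at hx
        rcases hx with hx | hx
        · exact hB x hx hxB
        · exact (hYd x hx).2 hxB)
      rwa [e3] at h6)
  have hCd : ∀ x, x ∈ C → x ∉ F ∧ x ∉ B := by
    intro x hx
    have := hC hx
    simp only [Finset.mem_union, Finset.mem_compl] at this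
    tauto
  exact ⟨C, Finset.disjoint_left.2 fun x hx => (hCd x hx).1,
    Finset.disjoint_left.2 fun x hx => (hCd x hx).2, h3, h4, h5⟩

end Pool.Agent.Helper64.IG.PkTLK
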